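import Pool.Agent.Q19.HO.Stm

set_option autoImplicit false

namespace Pool.Agent.Q109.HO.FIXP

open Matrix Pool.Agent.Q19.HO

variable {K : Type} [Field K] {n : ℕ}

theorem jp_mem {X Y : Mat n K} (hX : X ∈ SymP n K) (hY : Y ∈ SymP n K) : jp X Y ∈ SymP n K := by
  intro i j
  have hX' : ∀ i j, star (X j i) = X i j := hX
  have hY' : ∀ i j, star (Y j i) = Y i j := hY
  simp only [jp, Matrix.smul_apply, Matrix.add_apply, Matrix.mul_apply, star_smul', star_add,
    star_sum, star_mul]
  rw [add_comm]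
  congr 2
  · exact Finset.sum_congr rfl fun k _ => by rw [hX', hY']
  · exact Finset.sum_congr rfl fun k _ => by rw [hX', hY']

/-- the product of Hermitian matrices -/
def jpS (X Y : SymP n K) : SymP n K := ⟨jp (X : Mat n K) Y, jp_mem X.2 Y.2⟩

theorem f_jpS {f : SymP n K ≃ₗ[K] SymP n K} (hf : f ∈ AutP n K) (X Y : SymP n K) :
    f (jpS X Y) = jpS (f X) (f Y) :=
  Subtype.ext (hf X Y (jpS X Y) rfl).symm

theorem eu_apply (a x z : Fin n) : (eu a : Mat n K) x z = if x = a ∧ z = a then 1 else 0 := by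
  change (Matrix.single a a (1 : K)) x z • (1 : Oct K) = _
  rw [Matrix.single_apply]
  by_cases h : a = x ∧ a = z
  · rw [if_pos h, if_pos ⟨h.1.symm, h.2.symm⟩, one_smul]
  · rw [if_neg h, if_neg (fun h' => h ⟨h'.1.symm, h'.2.symm⟩), zero_smul]

theorem eu_mul (a : Fin n) (X : Mat n K) (x y : Fin n) :
    ((eu a : Mat n K) * X : Mat n K) x y = if x = a then X x y else 0 := by
  rw [Matrix.mul_apply]
  split_ifs with h
  · subst h
    rw [Finset.sum_eq_single x]
    · rw [eu_apply, if_pos ⟨rfl, rfl⟩, one_mul]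
    · intro z _ hz
      rw [eu_apply, if_neg (fun h' => hz h'.2), zero_mul]
    · intro h'
      exact absurd (Finset.mem_univ x) h'
  · refine Finset.sum_eq_zero fun z _ => ?_
    rw [eu_apply, if_neg (fun h' => h h'.1), zero_mul]

theorem mul_eu (a : Fin n) (X : Mat n K) (x y : Fin n) :
    (X * (eu a : Mat n K) : Mat n K) x y = if y = a then X x y else 0 := by
  rw [Matrix.mul_apply]
  split_ifs with h
  · subst h
    rw [Finset.sum_eq_single y]
    · rw [eu_apply, if_pos ⟨rfl, rfl⟩, mul_one]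
    · intro z _ hz
      rw [eu_apply, if_neg (fun h' => hz h'.1), mul_zero]
    · intro h'
      exact absurd (Finset.mem_univ y) h'
  · refine Finset.sum_eq_zero fun z _ => ?_
    rw [eu_apply, if_neg (fun h' => h h'.2), mul_zero]

/-- the coefficient -/
def cf (a x y : Fin n) : K := (2 : K)⁻¹ * ((if x = a then 1 else 0) + (if y = a then 1 else 0))

theorem jp_eu (a : Fin n) (X : Mat n K) (x y : Fin n) :
    jp (eu a) X x y = cf (K := K) a x y • X x y := by
  change (2 : K)⁻¹ • (((eu a : Mat n K) * X : Mat n K) x y + (X * (eu a : Mat n K) : Mat n K) x y) = _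
  rw [eu_mul, mul_eu, cf, mul_smul, add_smul]
  congr 2
  · split_ifs
    · rw [one_smul]
    · rw [zero_smul]
  · split_ifs
    · rw [one_smul]
    · rw [zero_smul]

theorem eu_mem (a : Fin n) : (eu a : Mat n K) ∈ SymP n K := by
  intro i j
  rw [eu_apply, eu_apply]
  by_cases h : j = a ∧ i = a
  · rw [if_pos h, if_pos ⟨h.2, h.1⟩, star_one]
  · rw [if_neg h, if_neg (fun h' => h ⟨h'.2, h'.1⟩), star_zero]

/-- the idempotent -/
def E (a : Fin n) : SymP n K := ⟨eu a, eu_mem a⟩

/-- the matrix with `w` at `(a,b)` and `star w` at `(b,a)` -/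
def W (a b : Fin n) (w : Oct K) : Mat n K := Matrix.single a b w + Matrix.single b a (star w)

theorem W_apply (a b : Fin n) (w : Oct K) (x y : Fin n) :
    W a b w x y = (if a = x ∧ b = y then w else 0) + (if b = x ∧ a = y then star w else 0) := by
  rw [W, Matrix.add_apply, Matrix.single_apply, Matrix.single_apply]

theorem W_mem {a b : Fin n} (w : Oct K) : W a b w ∈ SymP n K := by
  intro i j
  rw [W_apply, W_apply, star_add, add_comm]
  congr 1
  · by_cases h : b = j ∧ a = i
    · rw [if_pos h, if_pos ⟨h.2, h.1⟩, star_star]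
    · rw [if_neg h, if_neg (fun h' => h ⟨h'.2, h'.1⟩), star_zero]
  · by_cases h : a = j ∧ b = i
    · rw [if_pos h, if_pos ⟨h.2, h.1⟩]
    · rw [if_neg h, if_neg (fun h' => h ⟨h'.2, h'.1⟩), star_zero]

/-- as a Hermitian matrix -/
def Wp (a b : Fin n) (w : Oct K) : SymP n K := ⟨W a b w, W_mem w⟩

theorem W_ab {a b : Fin n} (h : a ≠ b) (w : Oct K) : W a b w a b = w := by
  rw [W_apply, if_pos ⟨rfl, rfl⟩, if_neg (fun h' => h h'.2), add_zero]

theorem Wp_inj {a b : Fin n} (h : a ≠ b) {w z : Oct K} (e : Wp a b w = Wp a b z) : w = z := by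
  have h1 := congrArg (fun X : SymP n K => (X : Mat n K) a b) e
  change W a b w a b = W a b z a b at h1
  rwa [W_ab h, W_ab h] at h1

theorem cf_ab (h2 : (2 : K) ≠ 0) {a b : Fin n} (h : a ≠ b) :
    (4 : K) * cf (K := K) a a b * cf (K := K) b a b = 1 := by
  unfold cf
  rw [if_pos rfl, if_neg (Ne.symm h), if_neg h, if_pos rfl]
  field_simp
  norm_num

theorem cf_ba (h2 : (2 : K) ≠ 0) {a b : Fin n} (h : a ≠ b) :
    (4 : K) * cf (K := K) a b a * cf (K := K) b b a = 1 := by
  unfold cf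
  rw [if_pos rfl, if_neg (Ne.symm h), if_neg h, if_pos rfl]
  field_simp
  norm_num

theorem cf_zero (a x y : Fin n) (hx : x ≠ a) (hy : y ≠ a) : cf (K := K) a x y = 0 := by
  unfold cf
  rw [if_neg hx, if_neg hy, add_zero, mul_zero]

theorem ext_ab (h2 : (2 : K) ≠ 0) {a b : Fin n} (h : a ≠ b) (Y : SymP n K) :
    (4 : K) • jpS (E a) (jpS (E b) Y) = Wp a b ((Y : Mat n K) a b) := by
  have hY : ∀ i j, star ((Y : Mat n K) j i) = (Y : Mat n K) i j := Y.2
  refine Subtype.ext (Matrix.ext fun x y => ?_)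
  change (4 : K) • jp (eu a) (jp (eu b) (Y : Mat n K)) x y = W a b ((Y : Mat n K) a b) x y
  rw [jp_eu, jp_eu, smul_smul, smul_smul, W_apply, hY b a]
  by_cases hxa : x = a
  · by_cases hyb : y = b
    · rw [hxa, hyb, cf_ab h2 h, one_smul, if_pos ⟨rfl, rfl⟩, if_neg (fun h' => h h'.2), add_zero]
    · have hxb : x ≠ b := fun e => h (hxa.symm.trans e)
      rw [cf_zero b x y hxb hyb, mul_zero, zero_smul, if_neg (fun h' => hyb h'.2.symm),
        if_neg (fun h' => hxb h'.1.symm), add_zero]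
  · by_cases hya : y = a
    · by_cases hxb : x = b
      · rw [hxb, hya, cf_ba h2 h, one_smul, if_neg (fun h' => h h'.1), if_pos ⟨rfl, rfl⟩, zero_add]
      · have hyb : y ≠ b := fun e => h (hya.symm.trans e)
        rw [cf_zero b x y hxb hyb, mul_zero, zero_smul, if_neg (fun h' => hxa h'.1.symm),
          if_neg (fun h' => hxb h'.1.symm), add_zero]
    · rw [cf_zero a x y hxa hya, mul_zero, zero_mul, zero_smul, if_neg (fun h' => hxa h'.1.symm),
        if_neg (fun h' => hya h'.2.symm), add_zero]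

theorem real_diag (h2 : (2 : K) ≠ 0) {x : Oct K} (h : star x = x) : x = (x 0) • (1 : Oct K) := by
  have key : ∀ r : K, -r = r → r = 0 := by
    intro r hr
    have : (2 : K) * r = 0 := by linear_combination (-1 : K) * hr
    exact (mul_eq_zero.1 this).resolve_left h2
  have h0 : x 1 = x 0 := congrArg (fun z : Oct K => z 0) h
  have e2 : x 2 = 0 := key _ (congrArg (fun z : Oct K => z 2) h)
  have e3 : x 3 = 0 := key _ (congrArg (fun z : Oct K => z 3) h)
  have e4 : x 4 = 0 := key _ (congrArg (fun z : Oct K => z 4) h)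
  have e5 : x 5 = 0 := key _ (congrArg (fun z : Oct K => z 5) h)
  have e6 : x 6 = 0 := key _ (congrArg (fun z : Oct K => z 6) h)
  have e7 : x 7 = 0 := key _ (congrArg (fun z : Oct K => z 7) h)
  refine oct_ext fun i => ?_
  fin_cases i
  · change x 0 = x 0 * 1
    rw [mul_one]
  · change x 1 = x 0 * 1
    rw [h0, mul_one]
  · change x 2 = x 0 * 0
    rw [e2, mul_zero]
  · change x 3 = x 0 * 0
    rw [e3, mul_zero]
  · change x 4 = x 0 * 0
    rw [e4, mul_zero]
  · change x 5 = x 0 * 0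
    rw [e5, mul_zero]
  · change x 6 = x 0 * 0
    rw [e6, mul_zero]
  · change x 7 = x 0 * 0
    rw [e7, mul_zero]

theorem ext_aa (h2 : (2 : K) ≠ 0) (a : Fin n) (Y : SymP n K) :
    (2 : K) • jpS (E a) (jpS (E a) Y) - jpS (E a) Y = ((Y : Mat n K) a a 0) • E a := by
  have hY : ∀ i j, star ((Y : Mat n K) j i) = (Y : Mat n K) i j := Y.2
  have hd := real_diag h2 (hY a a)
  refine Subtype.ext (Matrix.ext fun x y => ?_)
  change (2 : K) • jp (eu a) (jp (eu a) (Y : Mat n K)) x y - jp (eu a) (Y : Mat n K) x y =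
    ((Y : Mat n K) a a 0) • (eu a : Mat n K) x y
  rw [jp_eu, jp_eu, smul_smul, smul_smul, ← sub_smul, eu_apply]
  unfold cf
  by_cases hx : x = a
  · by_cases hy : y = a
    · rw [if_pos hx, if_pos hy, if_pos ⟨hx, hy⟩, hx, hy, ← hd]
      have : (2 : K) * ((2 : K)⁻¹ * (1 + 1)) * ((2 : K)⁻¹ * (1 + 1)) - (2 : K)⁻¹ * (1 + 1) = 1 := by
        field_simp
        norm_num
      rw [this, one_smul]
    · rw [if_pos hx, if_neg hy, if_neg (fun h' => hy h'.2), smul_zero]
      have : (2 : K) * ((2 : K)⁻¹ * (1 + 0)) * ((2 : K)⁻¹ * (1 + 0)) - (2 : K)⁻¹ * (1 + 0) = 0 := by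
        field_simp
        norm_num
      rw [this, zero_smul]
  · by_cases hy : y = a
    · rw [if_neg hx, if_pos hy, if_neg (fun h' => hx h'.1), smul_zero]
      have : (2 : K) * ((2 : K)⁻¹ * (0 + 1)) * ((2 : K)⁻¹ * (0 + 1)) - (2 : K)⁻¹ * (0 + 1) = 0 := by
        field_simp
        norm_num
      rw [this, zero_smul]
    · rw [if_neg hx, if_neg hy, if_neg (fun h' => hx h'.1), smul_zero]
      have : (2 : K) * ((2 : K)⁻¹ * (0 + 0)) * ((2 : K)⁻¹ * (0 + 0)) - (2 : K)⁻¹ * (0 + 0) = 0 := by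
        ring
      rw [this, zero_smul]

theorem W_mul (h2 : (2 : K) ≠ 0) {i j k : Fin n} (hij : i ≠ j) (hjk : j ≠ k) (hik : i ≠ k)
    (w b : Oct K) : (2 : K) • jpS (Wp i j w) (Wp j k b) = Wp i k (w * b) := by
  refine Subtype.ext ?_
  change (2 : K) • ((2 : K)⁻¹ • (W i j w * W j k b + W j k b * W i j w)) = W i k (w * b)
  rw [smul_smul, mul_inv_cancel₀ h2, one_smul]
  unfold W
  rw [mul_add, add_mul, add_mul, mul_add, add_mul, add_mul, single_mul_single_same,
    single_mul_single_same, single_mul_single_of_ne _ _ _ _ hij, single_mul_single_of_ne _ _ _ _ hjk,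
    single_mul_single_of_ne _ _ _ _ hik, single_mul_single_of_ne _ _ _ _ hik.symm,
    single_mul_single_of_ne _ _ _ _ hjk.symm, single_mul_single_of_ne _ _ _ _ hij.symm, star_mul]
  simp

section
variable {f : SymP n K ≃ₗ[K] SymP n K}

theorem fE (hfix : ∀ X : SymP n K, (∃ s ∈ SymK n K, (X : Mat n K) = re s) → f X = X) (a : Fin n) :
    f (E a) = E a := by
  apply hfix
  refine ⟨Matrix.single a a 1, ?_, rfl⟩
  change (Matrix.single a a (1 : K))ᵀ = Matrix.single a a 1
  rw [Matrix.transpose_single]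

theorem fW1 (hfix : ∀ X : SymP n K, (∃ s ∈ SymK n K, (X : Mat n K) = re s) → f X = X)
    (a b : Fin n) : f (Wp a b 1) = Wp a b 1 := by
  apply hfix
  refine ⟨Matrix.single a b 1 + Matrix.single b a 1, ?_, ?_⟩
  · change (Matrix.single a b (1 : K) + Matrix.single b a 1)ᵀ = _
    rw [Matrix.transpose_add, Matrix.transpose_single, Matrix.transpose_single, add_comm]
  · refine Matrix.ext fun x y => ?_
    change W a b (1 : Oct K) x y =
      (Matrix.single a b (1 : K) x y + Matrix.single b a (1 : K) x y) • (1 : Oct K)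
    rw [W_apply, star_one, add_smul, Matrix.single_apply, Matrix.single_apply]
    congr 1
    · split_ifs
      · rw [one_smul]
      · rw [zero_smul]
    · split_ifs
      · rw [one_smul]
      · rw [zero_smul]

theorem fW (h2 : (2 : K) ≠ 0) (hf : f ∈ AutP n K)
    (hfix : ∀ X : SymP n K, (∃ s ∈ SymK n K, (X : Mat n K) = re s) → f X = X)
    {a b : Fin n} (h : a ≠ b) (Y : SymP n K) :
    f (Wp a b ((Y : Mat n K) a b)) = Wp a b ((f Y : Mat n K) a b) := by
  rw [← ext_ab h2 h Y, ← ext_ab h2 h (f Y), map_smul, f_jpS hf, f_jpS hf, fE hfix, fE hfix]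

theorem W_lin (a b : Fin n) (r : K) (w z : Oct K) :
    (Wp a b (r • w + z) : SymP n K) = r • Wp a b w + Wp a b z := by
  refine Subtype.ext (Matrix.ext fun x y => ?_)
  change W a b (r • w + z) x y = r • W a b w x y + W a b z x y
  rw [W_apply, W_apply, W_apply, star_add, star_smul', smul_add]
  have e : ∀ (P : Prop) [Decidable P] (u v : Oct K),
      (if P then r • u + v else 0) = r • (if P then u else 0) + (if P then v else 0) := by
    intro P _ u v
    split_ifs
    · rfl
    · rw [smul_zero, add_zero]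
  rw [e, e]
  abel

/-- the linear map at the place `(a,b)` -/
noncomputable def T (f : SymP n K ≃ₗ[K] SymP n K) (a b : Fin n) : Oct K →ₗ[K] Oct K where
  toFun w := (f (Wp a b w) : Mat n K) a b
  map_add' w z := by
    have h1 := W_lin a b 1 w z
    rw [one_smul, one_smul] at h1
    rw [h1, map_add]
    rfl
  map_smul' r w := by
    have h1 := W_lin a b r w 0
    have h0 : (Wp a b 0 : SymP n K) = 0 := by
      have h3 := W_lin a b 0 (0 : Oct K) 0
      rw [zero_smul, zero_add, zero_smul, zero_add] at h3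
      have h4 := W_lin a b 1 (0 : Oct K) 0
      rw [one_smul, add_zero, one_smul] at h4
      exact left_eq_add.1 h4
    rw [h0, add_zero, add_zero] at h1
    rw [h1, map_smul]
    rfl

theorem T_apply (a b : Fin n) (w : Oct K) : T f a b w = (f (Wp a b w) : Mat n K) a b := rfl

theorem f_W (h2 : (2 : K) ≠ 0) (hf : f ∈ AutP n K)
    (hfix : ∀ X : SymP n K, (∃ s ∈ SymK n K, (X : Mat n K) = re s) → f X = X)
    {a b : Fin n} (h : a ≠ b) (w : Oct K) : f (Wp a b w) = Wp a b (T f a b w) := by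
  have h1 := fW h2 hf hfix h (Wp a b w)
  have h3 : ((Wp a b w : SymP n K) : Mat n K) a b = w := W_ab h w
  rw [h3] at h1
  exact h1

theorem T_mul (h2 : (2 : K) ≠ 0) (hf : f ∈ AutP n K)
    (hfix : ∀ X : SymP n K, (∃ s ∈ SymK n K, (X : Mat n K) = re s) → f X = X)
    {i j k : Fin n} (hij : i ≠ j) (hjk : j ≠ k) (hik : i ≠ k) (w b : Oct K) :
    T f i k (w * b) = T f i j w * T f j k b := by
  apply Wp_inj hik
  rw [← f_W h2 hf hfix hik, ← W_mul h2 hij hjk hik, ← W_mul h2 hij hjk hik, map_smul, f_jpS hf,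
    f_W h2 hf hfix hij, f_W h2 hf hfix hjk]

theorem T_one (hfix : ∀ X : SymP n K, (∃ s ∈ SymK n K, (X : Mat n K) = re s) → f X = X)
    {a b : Fin n} (h : a ≠ b) : T f a b 1 = 1 := by
  rw [T_apply, fW1 hfix]
  exact W_ab h 1

theorem T_row (h2 : (2 : K) ≠ 0) (hf : f ∈ AutP n K)
    (hfix : ∀ X : SymP n K, (∃ s ∈ SymK n K, (X : Mat n K) = re s) → f X = X)
    {i j k : Fin n} (hij : i ≠ j) (hik : i ≠ k) (w : Oct K) : T f i j w = T f i k w := by
  by_cases hjk : j = k
  · rw [hjk]
  · have h1 := T_mul h2 hf hfix hij hjk hik w 1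
    rw [mul_one, T_one hfix hjk, mul_one] at h1
    exact h1.symm

theorem T_col (h2 : (2 : K) ≠ 0) (hf : f ∈ AutP n K)
    (hfix : ∀ X : SymP n K, (∃ s ∈ SymK n K, (X : Mat n K) = re s) → f X = X)
    {i j k : Fin n} (hik : i ≠ k) (hjk : j ≠ k) (w : Oct K) : T f i k w = T f j k w := by
  by_cases hij : i = j
  · rw [hij]
  · have h1 := T_mul h2 hf hfix hij hjk hik 1 w
    rw [one_mul, T_one hfix hij, one_mul] at h1
    exact h1

end

theorem t : S_FIXP := by
  intro K _ n h2 hn f hf hfix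
  set i0 : Fin n := ⟨0, by omega⟩ with hi0
  set i1 : Fin n := ⟨1, by omega⟩ with hi1
  set i2 : Fin n := ⟨2, by omega⟩ with hi2
  have h01 : i0 ≠ i1 := fun e => by have := congrArg Fin.val e; simp [hi0, hi1] at this
  have h02 : i0 ≠ i2 := fun e => by have := congrArg Fin.val e; simp [hi0, hi2] at this
  have h12 : i1 ≠ i2 := fun e => by have := congrArg Fin.val e; simp [hi1, hi2] at this
  have hall : ∀ (i j : Fin n), i ≠ j → ∀ w : Oct K, T f i j w = T f i0 i1 w := by
    intro i j hij w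
    by_cases hi : i = i1
    · subst hi
      rw [T_row h2 hf hfix hij h12, T_col h2 hf hfix h12 h02, T_row h2 hf hfix h02 h01]
    · rw [T_row h2 hf hfix hij hi, T_col h2 hf hfix hi h01]
  have hinj : Function.Injective (T f i0 i1) := by
    intro w z e
    apply Wp_inj h01
    apply f.injective
    rw [f_W h2 hf hfix h01, f_W h2 hf hfix h01, e]
  set t : Oct K ≃ₗ[K] Oct K := LinearEquiv.ofInjectiveEndo (T f i0 i1) hinj with ht
  have htw : ∀ w, t w = T f i0 i1 w := fun w => rfl
  refine ⟨t, ?_, ?_⟩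
  · intro x y
    rw [htw, htw, htw, ← hall i0 i2 h02, T_mul h2 hf hfix h01 h12 h02, hall i1 i2 h12]
  · intro X
    refine Matrix.ext fun a b => ?_
    rw [Matrix.map_apply, htw]
    by_cases hab : a = b
    · subst hab
      have hX : ∀ i j, star ((X : Mat n K) j i) = (X : Mat n K) i j := X.2
      have hfX : ∀ i j, star ((f X : Mat n K) j i) = (f X : Mat n K) i j := (f X).2
      have h3 := ext_aa h2 a X
      have h4 := ext_aa h2 a (f X)
      have h5 := congrArg f h3
      rw [map_sub, map_smul, map_smul, f_jpS hf, f_jpS hf, fE hfix, h4] at h5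
      have h6 := congrArg (fun Z : SymP n K => (Z : Mat n K) a a) h5
      change ((f X : Mat n K) a a 0) • (eu a : Mat n K) a a =
        ((X : Mat n K) a a 0) • (eu a : Mat n K) a a at h6
      rw [eu_apply, if_pos ⟨rfl, rfl⟩, ← real_diag h2 (hfX a a), ← real_diag h2 (hX a a)] at h6
      rw [h6]
      conv_rhs => rw [real_diag h2 (hX a a), map_smul, T_one hfix h01, ← real_diag h2 (hX a a)]
    · rw [← hall a b hab, T_apply, fW h2 hf hfix hab X]
      exact (W_ab hab _).symm

end Pool.Agent.Q109.HO.FIXP
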